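import Pool.Agent.Y133.Half.TrueTate
import Pool.Agent.Y133.Half.DLaw
import Mathlib.LinearAlgebra.JordanChevalley

/-!
# Homological and numerical equivalence on `X × X` and the semisimplicity of Frobenius
-/

open CategoryTheory AlgebraicGeometry

universe u v

namespace Pool.Agent.K1H13.S

open Module Polynomial
open Pool.Agent.H914 Pool.Agent.H914.VarClass Pool.Agent.H914.VarClass.Obj
  Pool.Agent.H914.WeilCohomology Pool.Agent.W534 Pool.Agent.W458.MF Pool.Agent.W536.RR
  Pool.Agent.H281R3.HT Pool.Agent.Y133.Half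

variable {k : Type u} [Field k] {𝒱 : VarClass k} {ops : CycleOps 𝒱}
  {W : WeilCohomology.{u, v} ops} {X Y Z : 𝒱.Obj} {p : ℕ} (Φ : FrobSystem W p)

section Lin

variable {K V : Type*} [Field K] [CharZero K] [AddCommGroup V] [Module K V] [FiniteDimensional K V]

/-- An injective operator is semisimple if a power is. -/
lemma semisimple_of_pow {f : Module.End K V} (hf : Function.Injective f) {b : ℕ} (hb : 0 < b)
    (h : (f ^ b).IsSemisimple) : f.IsSemisimple := by
  set P := minpoly K (f ^ b)
  have hsq : Squarefree P := h.minpoly_squarefree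
  have hsep : P.Separable := PerfectField.separable_iff_squarefree.2 hsq
  have hann : aeval f (expand K b P) = 0 := by
    rw [expand_aeval]
    exact minpoly.aeval K (f ^ b)
  -- the polynomial has no root `0`
  have hdeg : P ≠ 0 := minpoly.ne_zero (Algebra.IsIntegral.isIntegral _)
  have h0 : ¬ X ∣ P := by
    rintro ⟨Q, hQ⟩
    have h1 : aeval (f ^ b) P = 0 := minpoly.aeval K (f ^ b)
    rw [hQ, map_mul, aeval_X] at h1
    have hinj : Function.Injective (f ^ b) := by
      rw [Module.End.coe_pow]
      exact hf.iterate b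
    have h2 : aeval (f ^ b) Q = 0 := by
      apply LinearMap.ext
      intro x
      apply hinj
      have := congrArg (fun g : Module.End K V => g x) h1
      simpa using this
    have h3 : P ∣ Q := minpoly.dvd K _ h2
    have hQ0 : Q ≠ 0 := by
      rintro rfl
      rw [mul_zero] at hQ
      exact hdeg hQ
    have h4 := Polynomial.natDegree_le_of_dvd h3 hQ0
    rw [hQ, natDegree_X_mul hQ0] at h4
    omega
  have hX : IsCoprime (X : K[X]) P := (irreducible_X.coprime_iff_not_dvd).2 h0
  have hX2 : IsCoprime ((X : K[X]) ^ b) (expand K b P) := by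
    have := hX.map (expand K b).toRingHom
    simpa using this
  have hX3 : IsCoprime (X : K[X]) (expand K b P) :=
    (IsCoprime.pow_left_iff hb).1 hX2
  have hsep2 : (expand K b P).Separable := by
    have h1 : IsCoprime P (derivative P) := hsep
    have h2 : IsCoprime (expand K b P) (expand K b (derivative P)) := by
      have := h1.map (expand K b).toRingHom
      simpa using this
    change IsCoprime (expand K b P) (derivative (expand K b P))
    rw [derivative_expand]
    refine h2.mul_right ?_
    refine IsCoprime.mul_right ?_ ?_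
    · have h3 : IsUnit ((b : K[X])) := by
        have : (b : K[X]) = C (b : K) := by simp
        rw [this, isUnit_C]
        exact (isUnit_iff_ne_zero).2 (Nat.cast_ne_zero.2 hb.ne')
      obtain ⟨w, hw⟩ := h3.exists_left_inv
      exact ⟨0, w, by rw [zero_mul, zero_add, hw]⟩
    · exact (hX3.symm).pow_right
  exact Module.End.isSemisimple_of_squarefree_aeval_eq_zero hsep2.squarefree hann

end Lin

/-- The space of the Tate classes of degree `2 j`. -/
def tateSub (Z : 𝒱.Obj) (j : ℕ) : Submodule W.K (W.H Z) where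
  carrier := {c | IsTate Φ Z j c}
  zero_mem' := isTate_iff.2 ⟨Submodule.zero_mem _, 1, one_pos, by rw [map_zero, smul_zero]⟩
  add_mem' := by
    rintro a b ha hb
    rw [Set.mem_setOf_eq, isTate_iff] at *
    obtain ⟨h1, s, hs, h2⟩ := ha
    obtain ⟨h3, t, ht, h4⟩ := hb
    refine ⟨Submodule.add_mem _ h1 h3, s * t, Nat.mul_pos hs ht, ?_⟩
    rw [map_add, eig_mul h2 t, eig_mul' h4 s, smul_add]
  smul_mem' := by
    rintro r a ha
    rw [Set.mem_setOf_eq, isTate_iff] at *
    obtain ⟨h1, s, hs, h2⟩ := ha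
    exact ⟨Submodule.smul_mem _ _ h1, s, hs, by rw [map_smul, h2, smul_comm]⟩

/-- All Tate classes of degree `2 j` are defined over one finite field. -/
lemma exists_tate_eig (Z : 𝒱.Obj) (j : ℕ) : ∃ t, 0 < t ∧ ∀ c, IsTate Φ Z j c →
    frob Φ Z t c = ((card Φ Z t : W.K) ^ j) • c := by
  obtain ⟨S, hS⟩ := (IsNoetherian.noetherian (tateSub Φ Z j) : (tateSub Φ Z j).FG)
  have h1 : ∀ S' : Finset (W.H Z), (S' : Set (W.H Z)) ⊆ tateSub Φ Z j → ∃ t, 0 < t ∧
      ∀ c ∈ S', frob Φ Z t c = ((card Φ Z t : W.K) ^ j) • c := by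
    classical
    intro S'
    induction S' using Finset.induction with
    | empty => exact fun _ => ⟨1, one_pos, fun c hc => absurd hc (by simp)⟩
    | insert a S' _ ih =>
      intro h
      rw [Finset.coe_insert, Set.insert_subset_iff] at h
      obtain ⟨t, ht, h2⟩ := ih h.2
      obtain ⟨-, s, hs, h3⟩ := isTate_iff.1 (show IsTate Φ Z j a from h.1)
      refine ⟨s * t, Nat.mul_pos hs ht, fun c hc => ?_⟩
      rcases Finset.mem_insert.1 hc with rfl | hc
      · exact eig_mul h3 t
      · exact eig_mul' (h2 c hc) s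
  obtain ⟨t, ht, h2⟩ := h1 S (by rw [← hS]; exact Submodule.subset_span)
  refine ⟨t, ht, fun c hc => ?_⟩
  have hc' : c ∈ tateSub Φ Z j := hc
  rw [← hS] at hc'
  induction hc' using Submodule.span_induction with
  | mem x hx => exact h2 x hx
  | zero => rw [map_zero, smul_zero]
  | add x y hx' hy' hx hy =>
    rw [hS] at hx' hy'
    rw [map_add, hx hx', hy hy', smul_add]
  | smul a x hx' hx =>
    rw [hS] at hx'
    rw [map_smul, hx hx', smul_comm]

/-- The operators given by the Tate classes in the middle degree of `X × X` commute with a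
power of the Frobenius endomorphism. -/
lemma exists_commute (X : 𝒱.Obj) : ∃ b, 0 < b ∧ ∀ z, IsTate Φ (X.prod X) X.dim z →
    Commute (frob Φ X b) (W.corr z : Module.End W.K (W.H X)) := by
  obtain ⟨t, ht, hz⟩ := exists_tate_eig Φ (X.prod X) X.dim
  obtain ⟨a₁, b₁, ha₁, hb₁, hab₁, h₁⟩ := frob_comm Φ (fst X X)
  obtain ⟨a₂, b₂, ha₂, hb₂, hab₂, h₂⟩ := frob_comm Φ (snd X X)
  have heX := Φ.e_pos X
  have hb : b₁ * a₂ * t = b₂ * a₁ * t := by
    apply Nat.eq_of_mul_eq_mul_right heX
    calc b₁ * a₂ * t * Φ.e X = (b₁ * Φ.e X) * (a₂ * t) := by ring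
      _ = (a₁ * Φ.e (X.prod X)) * (a₂ * t) := by rw [hab₁]
      _ = (a₂ * Φ.e (X.prod X)) * (a₁ * t) := by ring
      _ = (b₂ * Φ.e X) * (a₁ * t) := by rw [hab₂]
      _ = _ := by ring
  refine ⟨b₁ * a₂ * t, by positivity, fun z hz' => ?_⟩
  have hab : a₁ * a₂ * t * Φ.e (X.prod X) = b₁ * a₂ * t * Φ.e X := by
    calc a₁ * a₂ * t * Φ.e (X.prod X) = (a₁ * Φ.e (X.prod X)) * (a₂ * t) := by ring
      _ = (b₁ * Φ.e X) * (a₂ * t) := by rw [hab₁]
      _ = _ := by ring
  have hc : card Φ (X.prod X) (a₁ * a₂ * t) = card Φ X (b₁ * a₂ * t) :=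
    card_eq_of Φ hab
  have hf : ∀ x : W.H X, frob Φ (X.prod X) (a₁ * a₂ * t) (W.map (fst X X) x) =
      W.map (fst X X) (frob Φ X (b₁ * a₂ * t) x) := by
    intro x
    have := h₁ (a₂ * t) x
    rw [← mul_assoc, ← mul_assoc] at this
    exact this
  have hs : ∀ x : W.H X, W.map (W534.iter (Φ.Fr (X.prod X)) (a₁ * a₂ * t)) (W.map (snd X X) x) =
      W.map (snd X X) (W.map (W534.iter (Φ.Fr X) (b₁ * a₂ * t)) x) := by
    intro x
    have := h₂ (a₁ * t) x
    rw [← mul_assoc, ← mul_assoc, mul_comm a₂ a₁, ← hb] at this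
    exact this
  have hz2 : frob Φ (X.prod X) (a₁ * a₂ * t) z =
      ((card Φ (X.prod X) (a₁ * a₂ * t) : W.K) ^ X.dim) • z := eig_mul' (hz z hz') _
  apply LinearMap.ext
  intro x
  rw [Module.End.mul_apply, Module.End.mul_apply, corr_apply, corr_apply]
  have h3 := push_frob (Φ := Φ) (snd X X) hab hs (z * W.map (fst X X) x)
  have h4 : W.map (W534.iter (Φ.Fr (X.prod X)) (a₁ * a₂ * t)) (z * W.map (fst X X) x) =
      ((card Φ (X.prod X) (a₁ * a₂ * t) : W.K) ^ X.dim) •
        (z * W.map (fst X X) (frob Φ X (b₁ * a₂ * t) x)) := by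
    have := frob_mul_apply Φ (Z := X.prod X) (a₁ * a₂ * t) z (W.map (fst X X) x)
    rw [hz2, hf, smul_mul_assoc] at this
    exact this
  rw [h4, map_smul, smul_smul, hc, ← pow_add] at h3
  have hq : (card Φ X (b₁ * a₂ * t) : W.K) ^ (X.dim + X.dim) ≠ 0 := pow_ne_zero _ (card_ne Φ _)
  have h5 : (X.prod X).dim = X.dim + X.dim := dim_prod X X
  rw [h5] at h3
  exact (smul_right_injective _ hq h3).symm

/-- The Frobenius endomorphism is given by an algebraic class. -/
lemma frob_op (S : Sys W) (b : ℕ) : frob Φ X b ∈ S.Op X X := Sys.Op.map (W534.iter (Φ.Fr X) b)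

lemma adjoin_op (S : Sys W) {f : Module.End W.K (W.H X)} (hf : f ∈ S.Op X X)
    {n : Module.End W.K (W.H X)} (hn : n ∈ Algebra.adjoin W.K {f}) : n ∈ S.Op X X := by
  induction hn using Algebra.adjoin_induction with
  | mem x hx => rw [Set.mem_singleton_iff.1 hx]; exact hf
  | algebraMap r =>
    rw [Algebra.algebraMap_eq_smul_one]
    exact Submodule.smul_mem _ _ Sys.Op.id
  | add x y _ _ hx hy => exact Submodule.add_mem _ hx hy
  | mul x y _ _ hx hy => exact Sys.Op.comp hx hy

lemma frob_gr (b : ℕ) {i : ℕ} {x : W.H X} (hx : x ∈ W.gr X i) : frob Φ X b x ∈ W.gr X i :=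
  W.map_mem _ hx

lemma adjoin_gr {f : Module.End W.K (W.H X)} (hf : ∀ i, ∀ x ∈ W.gr X i, f x ∈ W.gr X i)
    {n : Module.End W.K (W.H X)} (hn : n ∈ Algebra.adjoin W.K {f}) :
    ∀ i, ∀ x ∈ W.gr X i, n x ∈ W.gr X i := by
  induction hn using Algebra.adjoin_induction with
  | mem x hx => rw [Set.mem_singleton_iff.1 hx]; exact hf
  | algebraMap r =>
    intro i x hx
    rw [Algebra.algebraMap_eq_smul_one]
    exact Submodule.smul_mem _ _ hx
  | add x y _ _ hx hy => intro i z hz; exact Submodule.add_mem _ (hx i z hz) (hy i z hz)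
  | mul x y _ _ hx hy => intro i z hz; exact hx i _ (hy i z hz)

lemma adjoin_comm {f g : Module.End W.K (W.H X)} (hf : Commute f g)
    {n : Module.End W.K (W.H X)} (hn : n ∈ Algebra.adjoin W.K {f}) : Commute n g := by
  induction hn using Algebra.adjoin_induction with
  | mem x hx => rw [Set.mem_singleton_iff.1 hx]; exact hf
  | algebraMap r => exact Algebra.commutes r g
  | add x y _ _ hx hy => exact hx.add_left hy
  | mul x y _ _ hx hy => exact hx.mul_left hy

/-- The trace of an operator which shifts the degrees vanishes. -/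
lemma trace_shift {f : Module.End W.K (W.H X)} {d : ℤ} (hd : d ≠ 0)
    (hf : ∀ i : ℕ, ∀ x ∈ W.gr X i, f x ∈ grZ (W.gr X) ((i : ℤ) + d)) :
    LinearMap.trace W.K (W.H X) f = 0 := by
  refine LinearMap.trace_eq_zero_of_mapsTo_ne (W.isInternal X)
    (fun i => if 0 ≤ (i : ℤ) + d then ((i : ℤ) + d).toNat else i + 1) ?_ ?_
  · intro i
    split_ifs with h
    · omega
    · omega
  · intro i x hx
    have h1 := hf i x hx
    split_ifs with h
    · obtain ⟨j, hj⟩ := Int.eq_ofNat_of_zero_le h
      rw [hj] at h1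
      rw [hj, Int.toNat_natCast]
      have := h1
      rwa [grZ_natCast] at this
    · rw [grZ_of_neg (by omega)] at h1
      rw [(Submodule.mem_bot _).1 h1]
      exact Submodule.zero_mem _

/-- If no nonzero class on `X × X` of a system of Tate classes is numerically trivial, then a power
of the Frobenius endomorphism is semisimple. -/
lemma frob_ss_of_num (S : Sys W) (hS : ∀ c ∈ S.C (X.prod X), c ∈ TSpan Φ (X.prod X))
    (h : S.Num (X.prod X) = ⊥) : ∃ b, 0 < b ∧ (frob Φ X b).IsSemisimple := by
  obtain ⟨b, hb, hcomm⟩ := exists_commute Φ X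
  refine ⟨b, hb, ?_⟩
  obtain ⟨n, hn, s, hs, hnil, hss, hsum⟩ :=
    Module.End.exists_isNilpotent_isSemisimple (K := W.K) (f := frob Φ X b)
  have hop := adjoin_op S (frob_op Φ S b) hn
  obtain ⟨c, hc, hcn⟩ := Sys.mem_Op.1 hop
  have hgr := adjoin_gr (fun i x hx => frob_gr Φ b hx) hn
  suffices hc0 : c = 0 by
    rw [hc0, corr_zero] at hcn
    rw [hsum, ← hcn, zero_add]
    exact hss
  have hmem : c ∈ S.Num (X.prod X) := by
    refine ⟨hc, fun d hd => ?_⟩
    have h1 := trace_corr_corr c (W.map (swap X X) d)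
    rw [swap_swap] at h1
    rw [← h1, hcn]
    have h0 : W.map (swap X X) d ∈ TSpan Φ (X.prod X) := hS _ (S.map _ hd)
    refine TSpan.ind (q := fun e => LinearMap.trace W.K (W.H X)
      (par (W.isInternal X) ∘ₗ n ∘ₗ W.corr e) = 0) ?_ ?_ ?_ ?_ h0
    · intro j z hz
      have hz2 := hz.1
      by_cases hj : j = X.dim
      · subst hj
        have h3 := adjoin_comm (hcomm _ hz) hn
        have h4 : IsNilpotent (n * W.corr z) := h3.isNilpotent_mul_right hnil
        have h5 : Commute (par (W.isInternal X)) (n * W.corr z) := by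
          have hev : Ev W (n ∘ₗ W.corr z) :=
            Ev.comp (Sys.Op.ev hop) (Ev.corr (PH.of' (by omega) hz2))
          exact hev.par_comm
        have h6 := h5.isNilpotent_mul_left h4
        exact (LinearMap.isNilpotent_trace_of_isNilpotent h6).eq_zero
      · refine trace_shift (d := 2 * ((j : ℤ) - X.dim)) (by omega) ?_
        intro i x hx
        have h2 := W.push_mem (snd X X) (W.mul_mem hz2 (W.map_mem (fst X X) hx))
        rw [dim_prod] at h2
        have h3 : W.corr z x ∈ grZ (W.gr X) ((i : ℤ) + 2 * ((j : ℤ) - X.dim)) := by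
          rw [corr_apply]
          have e : ((2 * j + i : ℕ) : ℤ) + 2 * ((X.dim : ℤ) - ((X.dim + X.dim : ℕ) : ℤ)) =
              (i : ℤ) + 2 * ((j : ℤ) - X.dim) := by push_cast; ring
          rw [← e]
          exact h2
        rw [LinearMap.comp_apply, LinearMap.comp_apply]
        have key : ∀ (m : ℤ), ∀ y ∈ grZ (W.gr X) m, (par (W.isInternal X)) (n y) ∈
            grZ (W.gr X) m := by
          intro m y hy
          by_cases hm : 0 ≤ m
          · obtain ⟨l, rfl⟩ := Int.eq_ofNat_of_zero_le hm
            have hy' : y ∈ W.gr X l := by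
              have := hy
              rwa [grZ_natCast] at this
            have hy2 := hgr l y hy'
            rw [PH.par (PH.of hy2)]
            have : (-1 : W.K) ^ l • n y ∈ grZ (W.gr X) ((l : ℕ) : ℤ) := by
              rw [grZ_natCast]
              exact Submodule.smul_mem _ _ hy2
            exact this
          · rw [grZ_of_neg (by omega)] at hy
            rw [(Submodule.mem_bot _).1 hy, map_zero, map_zero]
            exact Submodule.zero_mem _
        exact key _ _ h3
    · rw [corr_zero, LinearMap.comp_zero, LinearMap.comp_zero, map_zero]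
    · intro x y hx hy
      rw [corr_add, LinearMap.comp_add, LinearMap.comp_add, map_add, hx, hy, add_zero]
    · intro r x hx
      rw [corr_smul, LinearMap.comp_smul, LinearMap.comp_smul, map_smul, hx, smul_zero]
  rw [h, Submodule.mem_bot] at hmem
  exact hmem

/-- If no nonzero class on `X × X` of a system of Tate classes is numerically trivial, then the
Frobenius endomorphism is semisimple on the cohomology of `X`. -/
theorem frobSemisimple_of_num (S : Sys W) (hS : ∀ c ∈ S.C (X.prod X), c ∈ TSpan Φ (X.prod X))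
    (h : S.Num (X.prod X) = ⊥) : FrobSemisimple Φ X := by
  obtain ⟨b, hb, hss⟩ := frob_ss_of_num Φ S hS h
  have h1 : frob Φ X b = (W.map (Φ.Fr X)).toLinearMap ^ b := by
    apply LinearMap.ext
    intro x
    rw [Module.End.pow_apply, frob_apply, W534.map_iter]
    rfl
  have hinj : Function.Injective (W.map (Φ.Fr X)).toLinearMap := by
    rw [LinearMap.injective_iff_surjective]
    intro x
    obtain ⟨y, hy⟩ := map_iter_surjective Φ 1 x
    exact ⟨y, by
      rw [← hy]
      change W.map (Φ.Fr X) y = W.map (W534.iter (Φ.Fr X) 1) y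
      rw [W534.map_iter]
      rfl⟩
  rw [h1] at hss
  exact semisimple_of_pow hinj hb hss

/-- If homological and numerical equivalence agree on `X × X`, then the Frobenius endomorphism is
semisimple on the cohomology of `X`. -/
theorem frobSemisimple_of_homEqNum (h : HomEqNum W (X.prod X)) : FrobSemisimple Φ X := by
  refine frobSemisimple_of_num Φ (algSys W) (fun c hc => alg_le_trueTate Φ _ hc) ?_
  rw [eq_bot_iff]
  intro c hc
  rw [Submodule.mem_bot]
  exact Pool.Agent.Y129.homEqNum_algSpan h (mem_algNum.1 hc).1 (mem_algNum.1 hc).2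

end Pool.Agent.K1H13.S
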